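import Pool.Agent.Helper53.CTG.Goals

/-!
# PROJECT CTG (MP_8b4d68_lc): AS3, short words and malformed words
-/

namespace Pool.Agent.Helper14.CTG

open Pool.Agent.Helper53.CTG

theorem natlog_le {n : ℕ} (hn : 1 ≤ n) :
    ((Nat.log 2 (n + 1) + 5 : ℕ) : ℝ) ≤ 2 * Real.log n + 6 := by
  have hl2 : (0.6931471803 : ℝ) < Real.log 2 := Real.log_two_gt_d9
  have hn' : (1 : ℝ) ≤ n := by exact_mod_cast hn
  have hlog0 : 0 ≤ Real.log n := Real.log_nonneg hn'
  have h1 : (2 : ℝ) ^ (Nat.log 2 (n + 1)) ≤ (n : ℝ) + 1 := by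
    have := Nat.pow_log_le_self 2 (x := n + 1) (by omega)
    exact_mod_cast this
  have h2 : (Nat.log 2 (n + 1) : ℝ) * Real.log 2 ≤ Real.log 2 + Real.log n := by
    rw [← Real.log_mul (by norm_num) (by positivity), ← Real.log_pow]
    apply Real.log_le_log (by positivity)
    linarith
  have h3 : (Nat.log 2 (n + 1) : ℝ) ≤ 1 + 2 * Real.log n := by
    by_contra hcon
    push Not at hcon
    nlinarith
  push_cast
  linarith

theorem sqrt_loglog {n : ℕ} (hn : 3 ≤ n) :
    (1 / 4 : ℝ) ≤ √(Real.log n * Real.log (Real.log n)) := by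
  have hl2 : (0.6931471803 : ℝ) < Real.log 2 := Real.log_two_gt_d9
  have hn' : (3 : ℝ) ≤ n := by exact_mod_cast hn
  have h1 : 19 * Real.log 2 ≤ 12 * Real.log n := by
    have e1 : 19 * Real.log 2 = Real.log ((2 : ℝ) ^ 19) := by
      rw [Real.log_pow]; norm_num
    have e2 : 12 * Real.log n = Real.log ((n : ℝ) ^ 12) := by
      rw [Real.log_pow]; norm_num
    rw [e1, e2]
    apply Real.log_le_log (by positivity)
    calc (2 : ℝ) ^ 19 ≤ 3 ^ 12 := by norm_num
      _ ≤ (n : ℝ) ^ 12 := by gcongr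
  have h2 : (1.09 : ℝ) ≤ Real.log n := by linarith
  have h3 : (1 / 16 : ℝ) ≤ Real.log (Real.log n) := by
    have hpos : (0 : ℝ) < Real.log n := by linarith
    have h := Real.one_sub_inv_le_log_of_pos hpos
    have h4 : (Real.log n)⁻¹ ≤ (1.09 : ℝ)⁻¹ := by
      apply inv_anti₀ (by norm_num) h2
    have h5 : (1.09 : ℝ)⁻¹ ≤ 15 / 16 := by norm_num
    linarith
  apply Real.le_sqrt_of_sq_le
  nlinarith

theorem gAS3 : GoalAS3 := by
  refine ⟨8, by norm_num, fun n => ?_⟩
  rcases Nat.lt_or_ge n 1 with h0 | h1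
  · have hn : n = 0 := by omega
    subst hn
    unfold s2
    constructor <;> norm_num
  have hn' : (1 : ℝ) ≤ n := by exact_mod_cast h1
  have hlog0 : 0 ≤ Real.log n := Real.log_nonneg hn'
  have hb := natlog_le h1
  refine ⟨by linarith, ?_⟩
  unfold s2
  rcases Nat.lt_or_ge n 3 with h2 | h3
  · have hs : 0 ≤ √(Real.log n * Real.log (Real.log n)) := Real.sqrt_nonneg _
    have hle : Nat.log 2 (n + 1) ≤ 1 := by
      have : Nat.log 2 (n + 1) ≤ Nat.log 2 3 := Nat.log_mono_right (by omega)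
      have h3 : Nat.log 2 3 = 1 := by decide +kernel
      omega
    have hc : ((Nat.log 2 (n + 1) + 5 : ℕ) : ℝ) ≤ 6 := by
      exact_mod_cast (by omega : Nat.log 2 (n + 1) + 5 ≤ 6)
    nlinarith [mul_nonneg hlog0 hs]
  · have hs := sqrt_loglog h3
    have : Real.log n * (1 / 4) ≤ Real.log n * √(Real.log n * Real.log (Real.log n)) :=
      mul_le_mul_of_nonneg_left hs hlog0
    linarith

end Pool.Agent.Helper14.CTG
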